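import Pool.Agent.FTU.Stmts

/-!
# Block FTU, row DKP
-/

set_option autoImplicit false

open Complex

namespace Pool.Agent.FTU.H89

theorem Icc_succ (M : ℕ) : Finset.Icc (-((M + 1 : ℕ) : ℤ)) ((M + 1 : ℕ) : ℤ) =
    insert (((M + 1 : ℕ)) : ℤ) (insert (-((M + 1 : ℕ) : ℤ)) (Finset.Icc (-(M : ℤ)) M)) := by
  ext n
  simp only [Finset.mem_insert, Finset.mem_Icc]
  push_cast
  omega

theorem sum_succ {A : Type*} [AddCommMonoid A] (M : ℕ) (f : ℤ → A) :
    ∑ n ∈ Finset.Icc (-((M + 1 : ℕ) : ℤ)) ((M + 1 : ℕ) : ℤ), f n =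
      f ((M + 1 : ℕ) : ℤ) + (f (-((M + 1 : ℕ) : ℤ)) + ∑ n ∈ Finset.Icc (-(M : ℤ)) M, f n) := by
  rw [Icc_succ, Finset.sum_insert, Finset.sum_insert]
  · simp only [Finset.mem_Icc]
    push_cast
    omega
  · simp only [Finset.mem_insert, Finset.mem_Icc]
    push_cast
    omega

theorem sum_zero {A : Type*} [AddCommMonoid A] (f : ℤ → A) :
    ∑ n ∈ Finset.Icc (-((0 : ℕ) : ℤ)) ((0 : ℕ) : ℤ), f n = f 0 := by
  simp

theorem sin_mul_sum (a : ℝ) (M : ℕ) :
    Real.sin a * ∑ n ∈ Finset.Icc (-(M : ℤ)) M, Real.cos (n * a) =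
      Real.sin ((M + 1) * a) + Real.sin (M * a) := by
  induction M with
  | zero => rw [sum_zero]; simp
  | succ M ih =>
    rw [sum_succ, mul_add, mul_add, ih]
    have e1 : Real.cos (((-((M + 1 : ℕ) : ℤ) : ℤ) : ℝ) * a) = Real.cos ((M + 1) * a) := by
      rw [← Real.cos_neg]
      congr 1
      push_cast
      ring
    have e2 : Real.cos ((((M + 1 : ℕ) : ℤ) : ℝ) * a) = Real.cos ((M + 1) * a) := by
      push_cast
      rfl
    rw [e1, e2]
    have h1 : Real.sin ((((M + 1 : ℕ) : ℝ) + 1) * a) =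
        Real.sin ((M + 1) * a) * Real.cos a + Real.cos ((M + 1) * a) * Real.sin a := by
      rw [← Real.sin_add]
      congr 1
      push_cast
      ring
    have h2 : Real.sin ((M : ℝ) * a) =
        Real.sin ((M + 1) * a) * Real.cos a - Real.cos ((M + 1) * a) * Real.sin a := by
      rw [← Real.sin_sub]
      congr 1
      ring
    rw [h1, h2]
    have h3 : (((M + 1 : ℕ) : ℝ)) = (M : ℝ) + 1 := by push_cast; rfl
    rw [h3]
    ring

theorem sum_sin (a : ℝ) (M : ℕ) :
    ∑ n ∈ Finset.Icc (-(M : ℤ)) M, Real.sin (n * a) = 0 := by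
  induction M with
  | zero => rw [sum_zero]; simp
  | succ M ih =>
    rw [sum_succ, ih]
    have e1 : Real.sin (((-((M + 1 : ℕ) : ℤ) : ℤ) : ℝ) * a) =
        -Real.sin ((((M + 1 : ℕ) : ℤ) : ℝ) * a) := by
      rw [← Real.sin_neg]
      congr 1
      push_cast
      ring
    rw [e1]
    ring

theorem card_Icc (M : ℕ) : ((Finset.Icc (-(M : ℤ)) M).card : ℝ) = 2 * M + 1 := by
  rw [Int.card_Icc]
  have : ((M : ℤ) + 1 - -(M : ℤ)).toNat = 2 * M + 1 := by omega
  rw [this]
  push_cast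
  rfl

theorem dk_eq (ell : ℝ) (M : ℕ) (s : ℝ) :
    dk ell M s = (∑ n ∈ Finset.Icc (-(M : ℤ)) M, Real.cos (n * (2 * Real.pi / ell * s))) /
      (2 * M + 1) := by
  unfold dk
  congr 1
  refine Finset.sum_congr rfl fun n _ => ?_
  congr 1
  ring

theorem ss_dk (ell : ℝ) (M : ℕ) (s : ℝ) :
    ss ell s * dk ell M s = ell / (2 * Real.pi * (2 * M + 1)) *
      (Real.sin ((M + 1) * (2 * Real.pi / ell * s)) + Real.sin (M * (2 * Real.pi / ell * s))) := by
  rw [← sin_mul_sum, dk_eq]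
  unfold ss
  have h1 : (2 * (M : ℝ) + 1) ≠ 0 := by positivity
  have h2 : Real.pi ≠ 0 := Real.pi_ne_zero
  field_simp

/-- the exponential -/
theorem ex_eq (θ : ℝ) : cexp (I * ((θ : ℝ) : ℂ)) = (Real.cos θ : ℂ) + I * (Real.sin θ : ℂ) := by
  rw [mul_comm, Complex.exp_mul_I, Complex.ofReal_cos, Complex.ofReal_sin]
  ring

theorem dkp : DkpStmt := by
  intro ell M hl
  have hM : (0 : ℝ) < 2 * M + 1 := by positivity
  refine ⟨⟨fun _ => ((1 / (2 * M + 1) : ℝ) : ℂ), ?_, ?_⟩, ?_, ss_dk ell M, ?_, ?_⟩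
  · intro s
    rw [← Finset.mul_sum]
    have h : ∑ n ∈ Finset.Icc (-(M : ℤ)) M, cexp (I * ((2 * Real.pi / ell * n * s : ℝ) : ℂ)) =
        ((∑ n ∈ Finset.Icc (-(M : ℤ)) M, Real.cos (n * (2 * Real.pi / ell * s)) : ℝ) : ℂ) := by
      have h0 : ((∑ n ∈ Finset.Icc (-(M : ℤ)) M, Real.sin (n * (2 * Real.pi / ell * s)) : ℝ) : ℂ) =
          0 := by
        rw [sum_sin]
        simp
      have h1 : ∀ n ∈ Finset.Icc (-(M : ℤ)) M,
          cexp (I * ((2 * Real.pi / ell * n * s : ℝ) : ℂ)) =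
            ((Real.cos (n * (2 * Real.pi / ell * s)) : ℝ) : ℂ) +
              I * ((Real.sin (n * (2 * Real.pi / ell * s)) : ℝ) : ℂ) := by
        intro n _
        rw [ex_eq]
        have : 2 * Real.pi / ell * n * s = n * (2 * Real.pi / ell * s) := by ring
        rw [this]
      rw [Finset.sum_congr rfl h1, Finset.sum_add_distrib, ← Finset.mul_sum]
      rw [← Complex.ofReal_sum, ← Complex.ofReal_sum, h0]
      ring
    rw [h, dk_eq, ← Complex.ofReal_mul]
    congr 1
    ring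
  · rw [Finset.sum_const, nsmul_eq_mul, card_Icc, Complex.norm_real, Real.norm_eq_abs,
      abs_of_pos (by positivity)]
    apply le_of_eq
    field_simp
  · intro s
    rw [dk_eq, abs_div, abs_of_pos hM, div_le_one hM]
    calc |∑ n ∈ Finset.Icc (-(M : ℤ)) M, Real.cos (n * (2 * Real.pi / ell * s))|
        ≤ ∑ n ∈ Finset.Icc (-(M : ℤ)) M, |Real.cos (n * (2 * Real.pi / ell * s))| :=
          Finset.abs_sum_le_sum_abs _ _
      _ ≤ ∑ n ∈ Finset.Icc (-(M : ℤ)) M, (1 : ℝ) :=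
          Finset.sum_le_sum fun n _ => Real.abs_cos_le_one _
      _ = 2 * M + 1 := by rw [Finset.sum_const, nsmul_eq_mul, card_Icc, mul_one]
  · refine ⟨_, fun n => ((ell / (2 * Real.pi * (2 * M + 1)) : ℝ) : ℂ) / (2 * I) *
      ((if n = (M : ℤ) + 1 then 1 else 0) + (if n = (M : ℤ) then 1 else 0) -
        (if n = -(M : ℤ) then 1 else 0) - (if n = -((M : ℤ) + 1) then 1 else 0)), ?_, le_refl _⟩
    intro s
    set E : ℤ → ℂ := fun n => cexp (I * ((2 * Real.pi / ell * n * s : ℝ) : ℂ)) with hE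
    have hsum : ∀ m : ℤ, -((M + 1 : ℕ) : ℤ) ≤ m → m ≤ ((M + 1 : ℕ) : ℤ) →
        ∑ n ∈ Finset.Icc (-((M + 1 : ℕ) : ℤ)) ((M + 1 : ℕ) : ℤ), (if n = m then (1 : ℂ) else 0) * E n =
          E m := by
      intro m h1 h2
      rw [Finset.sum_eq_single m]
      · rw [if_pos rfl, one_mul]
      · intro b _ hb
        rw [if_neg hb, zero_mul]
      · intro h
        exact absurd (Finset.mem_Icc.2 ⟨h1, h2⟩) h
    have key : ∀ n : ℤ, ((ell / (2 * Real.pi * (2 * M + 1)) : ℝ) : ℂ) / (2 * I) *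
      ((if n = (M : ℤ) + 1 then 1 else 0) + (if n = (M : ℤ) then 1 else 0) -
        (if n = -(M : ℤ) then 1 else 0) - (if n = -((M : ℤ) + 1) then 1 else 0)) * E n =
        ((ell / (2 * Real.pi * (2 * M + 1)) : ℝ) : ℂ) / (2 * I) *
        ((if n = (M : ℤ) + 1 then (1 : ℂ) else 0) * E n + (if n = (M : ℤ) then (1 : ℂ) else 0) * E n -
        (if n = -(M : ℤ) then (1 : ℂ) else 0) * E n -
          (if n = -((M : ℤ) + 1) then (1 : ℂ) else 0) * E n) := by
      intro n
      ring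
    rw [Finset.sum_congr rfl (fun n _ => key n), ← Finset.mul_sum, Finset.sum_sub_distrib,
      Finset.sum_sub_distrib, Finset.sum_add_distrib,
      hsum _ (by push_cast; omega) (by push_cast; omega),
      hsum _ (by push_cast; omega) (by push_cast; omega),
      hsum _ (by push_cast; omega) (by push_cast; omega),
      hsum _ (by push_cast; omega) (by push_cast; omega)]
    simp only
    rw [ss_dk]
    have hE1 : ∀ m : ℤ, E m = ((Real.cos (m * (2 * Real.pi / ell * s)) : ℝ) : ℂ) +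
              I * ((Real.sin (m * (2 * Real.pi / ell * s)) : ℝ) : ℂ) := by
      intro m
      rw [hE]
      simp only
      rw [ex_eq]
      have : 2 * Real.pi / ell * m * s = m * (2 * Real.pi / ell * s) := by ring
      rw [this]
    have hE2 : ∀ m : ℤ, E m - E (-m) = 2 * I * ((Real.sin (m * (2 * Real.pi / ell * s)) : ℝ) : ℂ) := by
      intro m
      rw [hE1, hE1]
      have e1 : Real.cos (((-m : ℤ) : ℝ) * (2 * Real.pi / ell * s)) =
          Real.cos (m * (2 * Real.pi / ell * s)) := by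
        rw [← Real.cos_neg]
        congr 1
        push_cast
        ring
      have e2 : Real.sin (((-m : ℤ) : ℝ) * (2 * Real.pi / ell * s)) =
          -Real.sin (m * (2 * Real.pi / ell * s)) := by
        rw [← Real.sin_neg]
        congr 1
        push_cast
        ring
      rw [e1, e2]
      push_cast
      ring
    have h3 : E ((M : ℤ) + 1) + E (M : ℤ) - E (-(M : ℤ)) - E (-((M : ℤ) + 1)) =
        2 * I * ((Real.sin ((M + 1) * (2 * Real.pi / ell * s)) +
          Real.sin (M * (2 * Real.pi / ell * s)) : ℝ) : ℂ) := by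
      have h4 := hE2 ((M : ℤ) + 1)
      have h5 := hE2 (M : ℤ)
      have h6 : ((((M : ℤ) + 1 : ℤ)) : ℝ) = (M : ℝ) + 1 := by push_cast; rfl
      have h7 : (((M : ℤ)) : ℝ) = (M : ℝ) := by push_cast; rfl
      rw [h6] at h4
      rw [h7] at h5
      rw [Complex.ofReal_add, mul_add, ← h4, ← h5]
      ring
    rw [h3, Complex.ofReal_mul]
    have hI : (2 * I : ℂ) ≠ 0 := by simp
    field_simp
  · intro s
    rw [ss_dk, abs_mul]
    have h1 : |ell / (2 * Real.pi * (2 * M + 1))| = ell / (2 * Real.pi * (2 * M + 1)) :=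
      abs_of_pos (by positivity)
    rw [h1]
    have h2 : |Real.sin ((M + 1) * (2 * Real.pi / ell * s)) +
        Real.sin (M * (2 * Real.pi / ell * s))| ≤ 2 := by
      have := abs_add_le (Real.sin ((M + 1) * (2 * Real.pi / ell * s)))
        (Real.sin (M * (2 * Real.pi / ell * s)))
      have h3 := Real.abs_sin_le_one ((M + 1) * (2 * Real.pi / ell * s))
      have h4 := Real.abs_sin_le_one (M * (2 * Real.pi / ell * s))
      linarith
    have hpi : (1 : ℝ) ≤ Real.pi := by linarith [Real.pi_gt_three]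
    calc ell / (2 * Real.pi * (2 * M + 1)) * |Real.sin ((M + 1) * (2 * Real.pi / ell * s)) +
        Real.sin (M * (2 * Real.pi / ell * s))| ≤ ell / (2 * Real.pi * (2 * M + 1)) * 2 :=
          mul_le_mul_of_nonneg_left h2 (by positivity)
      _ = ell / (2 * M + 1) / Real.pi := by
          have : Real.pi ≠ 0 := Real.pi_ne_zero
          field_simp
      _ ≤ ell / (2 * M + 1) := div_le_self (by positivity) hpi

end Pool.Agent.FTU.H89
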